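import Pool.Agent.H55.MU.Asm3
import Pool.Agent.H33MU.Herb
import Pool.Agent.H92.MuG.Main
import Pool.Agent.H92.MuC.Main
import Pool.Agent.H10MU.Clno
import Pool.Agent.H78DN.Main
import Pool.Agent.H71MU.Main
import Pool.Agent.H35.MU.Unr

/-!
# Iwasawa's `μ`-invariant is at most the degree of the field, for almost all primes

Let `K` be a number field of degree `n`. For a prime `p` let `K_m = K B_m` be the `m`-th layer of the cyclotomic
`ℤ_p`-extension, `B_m` being the subfield of degree `p ^ m` of `ℚ(ζ_{p^{m+1}})`. We prove: **there is a `p₀` such that for
all primes `p ≥ p₀` there is a `C` such that the degree over `K_m` of every unramified abelian extension of `K_m` of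
`p`-power degree is at most `p ^ (n p ^ m + C (m + 1))`**, for all `m`.

The degree of the largest such extension is the order `p ^ e_m` of the `p`-part of the class group of `K_m` (if `p` is odd),
and `e_m = μ p ^ m + λ m + ν` for large `m` by a theorem of Iwasawa. So the theorem says that `μ ≤ n` for the Galois group
of the maximal unramified abelian pro-`p` extension of `K^cyc`, and so for its quotient `X` in the problem, for all but
finitely many `p`. (The conjecture is that `μ = 0`. For a fixed prime it is known that `μ` is finite; the theorem gives
a bound for all but finitely many primes which does not depend on the prime.) These deductions are not part of the formal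
proof.

## The proof

* The class number of `K_1` is less than `p ^ ((n + 1) (p - 1))` for large `p`: the class number of a number field of degree
  `N` and discriminant `d` is at most `c ^ N |d| ^ (1/2) (log |d|) ^ N / N!`, and for `K_1` the degree is `n p` and `d` is
  `p ^ (2 n (p - 1))` up to a factor `a ^ p`.
* The degree of an unramified abelian extension `L / M` of `p`-power degree is at most the class number of `M`. For cyclic
  `L / M` the first inequality `[L : M] ≤ [Cl(M) : N Cl(L)]` follows from the computation of the Herbrand quotient of the
  units of `L`. The primes of `M` that split in `L` have density `1 / [L : M]` and have their class in `N Cl(L)`, and the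
  primes with class in `N Cl(L)` have density `1 / [Cl(M) : N Cl(L)]`; so almost all primes with class in `N Cl(L)` split in
  `L`. For abelian `L / M` let `D` be the intersection of the groups `N Cl(L')`, `L'` running through the cyclic
  subextensions. Almost all primes with class in `D` split in `L`. So `[L : M] ≤ [Cl(M) : D]`.
* The unramified abelian `p`-extensions of the layers are described by the open subgroups of the absolute Galois group of `K`
  and by the inertia groups. If `p` is large, `p` is unramified in `K` and does not divide the class number of `K`; the
  primes above `p` are totally ramified in the layers and the other primes are unramified. As in the proof of the theorem of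
  Iwasawa the largest unramified abelian `p`-extension of `K_m` is described by a quotient of a module with generators that
  do not depend on `m`. From `|X_1| < p ^ ((n + 1) (p - 1))` it follows by an argument with determinants over `ℤ[X]` that
  `|X_m| ≤ p ^ (n p ^ m + C (m + 1))`.

## Authors

The parts were proved by helper33 (the computation of the Herbrand quotient), helper92 (the growth of finite modules; the
layers of the cyclotomic `ℤ_p`-extension), helper10 (class numbers), helper78 (zeta functions and density), helper71 (the
group theory), helper35 (the inertia groups outside `p`), helper55 (the first inequality, the assembly).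
-/

set_option autoImplicit false

open NumberField Module

namespace Pool.Agent.Results.MP_d0239a_nt.MuAtMostDegree

open Pool.Agent.H55.MU

/-- **Theorem.** Let `K` be a number field. There is a `p₀` such that for every prime `p ≥ p₀` there is a `C` such that:
if `B` is the subfield of degree `p ^ m` of `ℚ(ζ_{p^{m+1}})` and `L` is an abelian extension of `p`-power degree `p ^ k` of
`K B`, unramified at all primes, then `k ≤ [K : ℚ] p ^ m + C (m + 1)`. -/
theorem result (K : IntermediateField ℚ ℂ) [FiniteDimensional ℚ K] : ∃ p₀ : ℕ, ∀ p : ℕ, p.Prime → p₀ ≤ p →
    ∃ C : ℕ, ∀ (m : ℕ) (B : IntermediateField ℚ ℂ),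
      B ≤ IntermediateField.adjoin ℚ {z : ℂ | z ^ (p ^ (m + 1)) = 1} → finrank ℚ B = p ^ m →
      ∀ [NumberField ↥(K ⊔ B)] (L : Type) [Field L] [NumberField L] [Algebra ↥(K ⊔ B) L]
        [IsGalois ↥(K ⊔ B) L] (k : ℕ), (∀ x y : Gal(L/↥(K ⊔ B)), x * y = y * x) →
        Nat.card Gal(L/↥(K ⊔ B)) = p ^ k →
        (∀ P : Ideal (𝓞 L), P.IsMaximal → P.ramificationIdx (𝓞 ↥(K ⊔ B)) = 1) →
        k ≤ finrank ℚ K * p ^ m + C * (m + 1) :=
  main_bound Pool.Agent.H33MU.main Pool.Agent.H78DN.main (Pool.Agent.H71MU.main Pool.Agent.H92.MuG.main)
    Pool.Agent.H92.MuC.main Pool.Agent.H35.MU.main Pool.Agent.H10MU.main K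

end Pool.Agent.Results.MP_d0239a_nt.MuAtMostDegree
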