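import Pool.Agent.H24GH.U
import Pool.Agent.H24GH.Sharp

/-!
# The `μ`-conjecture of Iwasawa and quotients of permutation modules

Let `p` be a prime. `QB` is the field of the algebraic numbers, `Qcyc p` is the cyclotomic
`ℤ_p`-extension of `ℚ`, and `F ⊔ Qcyc p` is the cyclotomic `ℤ_p`-extension of the number field `F`. For a
subfield `L` of `QB` let `Homs p L` be the set of the continuous homomorphisms from the absolute Galois
group of `L` to `ℤ / p` which are trivial on the inertia groups of all (finite) primes and on the
decomposition groups of the primes over `p`. For `L = F ⊔ Qcyc p` this is the Pontryagin dual of `X / p`,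
where `X` is the module of the problem. So `X` is finitely generated over `ℤ_p` if and only if
`Homs p (F ⊔ Qcyc p)` is finite; this is `MuConj p F`. (For `p = 2` the real places may ramify, in
contrast to the class groups in the frozen statement.) For a subgroup `D` of `Aut F` let `F^D = fx F D`.

1. Let `H` be any subgroup of `Aut F`. If the conjecture fails for `F^H` then there is a nonzero quotient
   `V` of the permutation module `𝔽_p[Aut F / H]` such that it fails for `F^D` for **all** the subgroups
   `D` of `Aut F` (of any order) which fix a nonzero vector of `V`. The converse is clear (`D = H`).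
2. Let `H` and the `D i` be any subgroups of `Aut F` such that every nonzero quotient of `𝔽_p[Aut F / H]`
   has for some `i` a nonzero vector fixed by `D i` (`Dominated`). If the conjecture holds for all
   `F^{D i}` then it holds for `F^H`. More precisely, let `Z` be any Galois extension of `ℚ`, finite or
   infinite (a layer of the cyclotomic `ℤ_p`-extension, for example), let `F` be unramified outside `R`,
   let `t` be the number of the primes of `F Z` over the primes in `R` and `p`, and let `h(L)` be the
   number of elements of `Homs p L` (if `p ≠ 2` and `L` is a number field this is the number of the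
   elements of order dividing `p` of the class group modulo the classes of the primes over `p`). Then, with
   `g = |Aut F|`, `h(F^H Z) ≤ p ^ g (∏ i, p ^ (g ^ 2 + 2 t g + 1) h(F^{D i} Z)) ^ (g ^ 2)`
   (`RankInequalityFor`).
3. The criterion in 2 is the best possible one which uses only the structure of a module: for a finite
   group `Γ` and its subgroups `H`, `D i` every nonzero quotient of `𝔽_p[Γ/H]` has for some `i` a nonzero
   vector fixed by `D i` if and only if for every `𝔽_p[Γ]`-module `N` (finite or infinite) the
   finiteness of all `N^{D i}` implies the finiteness of `N^H`.
4. Let `C` be a set of number fields which contains the subfields of its elements (for example all number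
   fields, or the totally real ones, or the solvable ones). A field `M` is *tight* for `C` if for every
   `L ∈ C` and every `H ≤ Aut L` with `M ≤ L^H` some nonzero quotient of `𝔽_p[Aut L / H]` has no nonzero
   vector fixed by a subgroup `D` with `[L^D : ℚ] < [M : ℚ]`. The conjecture for the tight fields in `C` of
   degree at most `n` implies the conjecture for all the fields in `C` of degree at most `n`.
5. Let `M ∈ C` be tight. Then `p` does not divide `|Aut M|`, and `Aut M` acts on a finite `𝔽_p`-vector
   space `V ≠ 0` such that no `σ ≠ 1` has a nonzero fixed vector (so `Aut M` is a Frobenius complement: its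
   subgroups of order `q r`, `q` and `r` primes, are cyclic). For every `L ∈ C` which contains `M` the
   `p`-subgroups `P` of `Aut L` satisfy `|P| [M : ℚ] ≤ [L : ℚ]`.

A `p`-group fixes a nonzero vector of every `V`, so the theorem of Iwasawa on `p`-extensions is the case of
one `p`-group `D` in 2. The criterion of `TraceDominatedFields` of this problem (every irreducible module
with nonzero vectors fixed by `H` contains a `v` whose norm `N_{D i} v` is not zero for some `i`) implies
`Dominated`: a nonzero quotient `V` of the permutation module has an irreducible quotient with a nonzero
vector fixed by `H`, and a vector of nonzero norm can be lifted to `V`; here the order of `H` is not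
restricted. The case `H = 1` says: if every irreducible `𝔽_p[Aut F]`-module has for some `i` a nonzero
vector fixed by `D i` then the conjecture holds for `F` if and only if it holds for all `F^{D i}`.

Proof. Let `M = Homs p (F Z)` and `Γ = Aut F`. The homomorphisms in `M` which are invariant under the Galois
group of `F^D Z` extend to it up to a cocycle of a subgroup of `Γ`. The restrictions of the extensions to
the inertia groups, and to the decomposition groups over `p`, are determined by finitely many values, as
there are only finitely many primes of `F Z` which are ramified over `Z` or lie over `p` (for `Z = Qcyc p`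
this is proved in `Pool/Agent/H24UR/Dec.lean`). Let `T` be the span of all the invariants for the
conjugates of the `D i`, and let `f` be a linear projection of `M` to `T`. Let `z ≠ 0` be invariant under the
Galois group of `F^H Z`, and suppose that `f (σ z) = 0` for all `σ`. Then the module `W` generated by `z`
has no nonzero vectors in `T`. In the representation of `Γ` induced from `W` (a module for the image of the
stabiliser of `F` in the Galois group of `QB` over `Z`) there is a nonzero vector fixed by `H`, with the
value `z` at `1`. The submodule which it generates has a nonzero vector fixed by some `D i`, and a value of it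
is a vector of `W` in `T`. So `z ↦ (f (σ z))_σ` is injective (`Pool/Agent/H24GH/Alg.lean`).
-/

set_option autoImplicit false

open Pool.Agent.H24MU.St Pool.Agent.H24UR.St Pool.Agent.H24GH

namespace Pool.Agent.Results.MP_d0239a_nt.PermutationModulesMu

theorem result (p : ℕ) (hp : p.Prime) :
    (∀ (F : Fds) [FiniteDimensional ℚ F] (H : Subgroup (Aut F)),
      (¬ MuConj p (fx F H) ↔ U.HasQuotientWitness p F H) ∧
      ∀ (ι : Type) (D : ι → Subgroup (Aut F)), Dominated p H D →
        ((∀ i, MuConj p (fx F (D i))) → MuConj p (fx F H)) ∧
        ∀ [Fintype ι] (Z : Fds) (R : Finset ℕ), Normal ℚ Z →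
          UnramifiedOutside R F → U.RankInequalityFor p R F Z H D) ∧
    (∀ (Γ ι : Type) [Group Γ] [Finite Γ] (H : Subgroup Γ) (D : ι → Subgroup Γ),
      Dominated p H D ↔ ∀ (N : Type) [CommGroup N] (b : Γ →* MulAut N), (∀ v : N, v ^ p = 1) →
        (∀ i, {v : N | ∀ d ∈ D i, b d v = v}.Finite) → {v : N | ∀ h ∈ H, b h v = v}.Finite) ∧
    (∀ C : Set Fds, SubfieldClosed C →
      (∀ n : ℕ, (∀ M ∈ C, U.TightFor p C M → deg M ≤ n → MuConj p M) →
        ∀ F ∈ C, deg F ≤ n → MuConj p F) ∧
      ∀ M ∈ C, U.TightFor p C M → Restrictions p C M) :=
  ⟨fun F _ H => ⟨Pool.Agent.H24GH.U.mu_witness hp F H, fun _ D hdom =>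
      ⟨Pool.Agent.H24GH.U.mu_dom hp F H D hdom, fun Z R hZ hR =>
        Pool.Agent.H24GH.U.bounded hp F Z (Pool.Agent.H24MU.normal_fix Z hZ) H D hdom R hR⟩⟩,
    fun _ _ _ _ H D => Pool.Agent.H24GH.sharp hp H D,
    fun C hC => ⟨Pool.Agent.H24GH.U.red hp C hC, Pool.Agent.H24GH.U.restricted hp C hC⟩⟩

end Pool.Agent.Results.MP_d0239a_nt.PermutationModulesMu
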