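import Pool.Agent.H92.Mu.Red

/-!
# The `μ`-conjecture of Iwasawa: norms of subgroups of arbitrary order on irreducible modules

Let `p` be a prime. For a number field `L` let `rk p L` be the number of elements of order dividing `p` of the class
group of `L` modulo the classes of the primes above `p`. The conjecture for `p` and the number field `F` says that
`rk p (F E)` is bounded, `E` running through the layers of the cyclotomic `ℤ_p`-extension of `ℚ` (`MuConj p F`; this is
the property in the frozen statement of the problem). For a subgroup `D` of `Aut F` let `fx F D` be the field of the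
elements of `F` fixed by `D`.

For an `𝔽_p[Aut F]`-module `V` let `N_D v` be the product (`V` is written multiplicatively) of the `d v`, `d ∈ D`.
Let `H` be a subgroup of order prime to `p` and let the `D i` be **arbitrary** subgroups such that every irreducible
`V` with a nonzero `H`-fixed vector contains a `v` with `N_{D i} v ≠ 1` for some `i` (`TraceDominates p H D`).

1. `rk p (F^H E) ≤ (∏ i, rk p (F^{D i} E)) ^ |Aut F|` for every Galois extension `E` of `ℚ` of `p`-power degree. So the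
   conjecture for the `F^{D i}` implies the conjecture for `F^H`.
2. `H` is a *peak* of a finite group `Γ` if some irreducible `𝔽_p[Γ]`-module `V` has `N_H V ≠ 1` and `N_D V = 1` for all
   subgroups `D` with `|D| > |H|`. A number field `M` is *tight* if `H` is a peak of `Aut L` for all number fields `L`
   and all `H ≤ Aut L` of order prime to `p` with `M = L^H`. For each `n` the conjecture for the tight fields of degree
   at most `n` implies the conjecture for all number fields of degree at most `n`; the conjecture for the `F^H`, `H` the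
   peaks of `Aut F`, implies the conjecture for `F`.
3. Let `M` be tight. The subgroups of `Aut M` of order `q r`, `q` and `r` primes different from `p`, are cyclic. If
   `p = 2` the involutions of `Aut M` generate a `2`-group; for `p` odd the product of two involutions has `p`-power order.
   Nonabelian simple subgroups of `Aut M` have odd order (so there are none, by the theorem of Feit and Thompson). Each
   element of order `p` which normalises a commutative subgroup of order prime to `p` centralises it.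
4. Let `p = 2`, let `c` be an involution of `Aut F` and let `D` be a subgroup of odd order of the normal closure of `c`.
   The conjecture for `F^c` and `F^D` implies the conjecture for `F`.
5. Let `σ ∈ Aut F` have order `p` and normalise the commutative subgroup `Q` of order prime to `p`, and let `[σ, Q]` be
   the group of the `σ q σ⁻¹ q⁻¹`. The conjecture for `F^σ` and `F^[σ, Q]` implies the conjecture for `F`.
-/

set_option autoImplicit false
set_option linter.style.haveILetI false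

open NumberField

namespace Pool.Agent.Results.MP_d0239a_nt.TraceDominatedFields

open Pool.Agent.X27.Cln Pool.Agent.X310.Mu Pool.Agent.H92.Mu

/-- The conjecture for the prime `p` and the number field `F`: the property in the frozen statement of the problem. -/
def MuConj (p : ℕ) (F : IntermediateField ℚ ℂ) : Prop :=
  ∃ C : ℕ, ∀ (n : ℕ) (E : IntermediateField ℚ ℂ),
    E ≤ IntermediateField.adjoin ℚ {z : ℂ | z ^ (p ^ (n + 2)) = 1} →
    Module.finrank ℚ E = p ^ n →
    (∀ x ∈ E, starRingEnd ℂ x = x) →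
    ∀ [NumberField ↥(F ⊔ E)], rk p ↥(F ⊔ E) ≤ C

/-- In each number field `L` with `M = L^H`, `H` of order prime to `p`, the subgroup `H` is a peak. -/
def Tight (p : ℕ) (M : IntermediateField ℚ ℂ) : Prop :=
  ∀ (L : IntermediateField ℚ ℂ) [FiniteDimensional ℚ L] (H : Subgroup (L ≃ₐ[ℚ] L)),
    ¬ p ∣ Nat.card H → fx L H = M → Peak p H

theorem fx_bot (F : IntermediateField ℚ ℂ) : fx F ⊥ = F := by
  apply le_antisymm (fx_le F ⊥)
  intro x hx
  refine ⟨⟨x, hx⟩, (IntermediateField.mem_fixedField_iff ⊥ _).2 ?_, rfl⟩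
  intro f hf
  rw [Subgroup.mem_bot] at hf
  rw [hf]
  rfl

theorem card_bot {p : ℕ} (hp : p.Prime) {G : Type} [Group G] : ¬ p ∣ Nat.card (⊥ : Subgroup G) := by
  rw [Subgroup.card_bot]
  exact hp.one_lt.ne' ∘ Nat.dvd_one.1

theorem mu_dom {p : ℕ} (hp : p.Prime) (F : IntermediateField ℚ ℂ) [FiniteDimensional ℚ F]
    {ι : Type} [Fintype ι] (H : Subgroup (F ≃ₐ[ℚ] F)) (D : ι → Subgroup (F ≃ₐ[ℚ] F))
    (hH : ¬ p ∣ Nat.card H) (hdom : TraceDominates p H D)
    (h : ∀ i, MuConj p (fx F (D i))) : MuConj p (fx F H) := by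
  have hpf : Fact p.Prime := ⟨hp⟩
  choose C hC using h
  refine ⟨(∏ i, C i) ^ Nat.card (F ≃ₐ[ℚ] F), fun n E hE hEf hEr hnf => ?_⟩
  have hfd : FiniteDimensional ℚ E := FiniteDimensional.of_finrank_pos (by rw [hEf]; exact pow_pos hp.pos n)
  have hg : IsGalois ℚ E := abelian_of_le _ (pow_pos hp.pos _) E hE
  have nF : NumberField F := ⟨⟩
  have hfx : ∀ D : Subgroup (F ≃ₐ[ℚ] F), FiniteDimensional ℚ (fx F D) := fun D => fx_fd F D
  have hnf' : ∀ D : Subgroup (F ≃ₐ[ℚ] F), NumberField ↥(fx F D ⊔ E) := fun D => by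
    have : FiniteDimensional ℚ ↥(fx F D ⊔ E) := inferInstance
    exact ⟨⟩
  have hnf2 : NumberField ↥(F ⊔ E) := by
    have : FiniteDimensional ℚ ↥(F ⊔ E) := inferInstance
    exact ⟨⟩
  have hnf3 : ∀ i, NumberField ↥(fx F (D i) ⊔ E) := fun i => hnf' (D i)
  have h1 := rk_dom_cx F E n hEf H D hH hdom
  refine (show rk p ↥(fx F H ⊔ E) ≤ _ from h1).trans ?_
  refine Nat.pow_le_pow_left (Finset.prod_le_prod' fun i _ => ?_) _
  exact hC i n E hE hEf hEr

theorem mu_sub {p : ℕ} (hp : p.Prime) (F : IntermediateField ℚ ℂ) (_ : FiniteDimensional ℚ F)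
    (D : Subgroup (F ≃ₐ[ℚ] F)) (hD : ¬ p ∣ Nat.card D) (h : MuConj p F) : MuConj p (fx F D) := by
  have hpf : Fact p.Prime := ⟨hp⟩
  obtain ⟨C, hC⟩ := h
  refine ⟨C, fun n E hE hEf hEr hnf => ?_⟩
  have hfd : FiniteDimensional ℚ E := FiniteDimensional.of_finrank_pos (by rw [hEf]; exact pow_pos hp.pos n)
  have nF : NumberField F := ⟨⟩
  have hnf' : NumberField ↥(F ⊔ E) := by
    have : FiniteDimensional ℚ ↥(F ⊔ E) := inferInstance
    exact ⟨⟩
  exact (show rk p ↥(fx F D ⊔ E) ≤ _ from rk_ge_cx F E D hD).trans (hC n E hE hEf hEr)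

theorem fx_finrank (F : IntermediateField ℚ ℂ) [FiniteDimensional ℚ F] (D : Subgroup (F ≃ₐ[ℚ] F)) :
    Module.finrank ℚ (fx F D) * Nat.card D = Module.finrank ℚ F := by
  have h1 : Module.finrank ℚ (fx F D) = Module.finrank ℚ (IntermediateField.fixedField D) :=
    (IntermediateField.liftAlgEquiv (IntermediateField.fixedField D)).toLinearEquiv.finrank_eq.symm
  rw [h1, ← IntermediateField.finrank_fixedField_eq_card D]
  exact Module.finrank_mul_finrank ℚ (IntermediateField.fixedField D) F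

theorem red {p : ℕ} (hp : p.Prime) (n : ℕ)
    (h : ∀ M : IntermediateField ℚ ℂ, FiniteDimensional ℚ M → Tight p M → Module.finrank ℚ M ≤ n → MuConj p M)
    (F : IntermediateField ℚ ℂ) (hF : FiniteDimensional ℚ F) (hn : Module.finrank ℚ F ≤ n) : MuConj p F := by
  obtain ⟨m, hm⟩ : ∃ m, Module.finrank ℚ F = m := ⟨_, rfl⟩
  induction m using Nat.strong_induction_on generalizing F with
  | _ m ih =>
    by_cases ht : Tight p F
    · exact h F hF ht hn
    unfold Tight at ht
    push Not at ht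
    obtain ⟨L, hL, H, hH, hHF, hpk⟩ := ht
    rw [← hHF]
    have : Finite (L ≃ₐ[ℚ] L) := inferInstance
    have : Fintype {D : Subgroup (L ≃ₐ[ℚ] L) // Nat.card H < Nat.card D} := Fintype.ofFinite _
    refine mu_dom hp L H _ hH (not_peak hp hH hpk) fun D => ?_
    have hlt : Module.finrank ℚ (fx L D.1) < Module.finrank ℚ F := by
      have h1 := fx_finrank L D.1
      have h2 := fx_finrank L H
      rw [hHF] at h2
      have h3 := D.2
      have h4 : 0 < Module.finrank ℚ F := Module.finrank_pos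
      have h5 : 0 < Nat.card D.1 := Nat.card_pos
      by_contra hle
      push Not at hle
      have h6 : Module.finrank ℚ F * Nat.card H < Module.finrank ℚ F * Nat.card D.1 :=
        (Nat.mul_lt_mul_left h4).2 h3
      have h7 : Module.finrank ℚ F * Nat.card D.1 ≤ Module.finrank ℚ (fx L D.1) * Nat.card D.1 :=
        Nat.mul_le_mul_right _ hle
      omega
    exact ih _ (by rw [← hm]; exact hlt) (fx L D.1) (fx_fd L D.1) (hlt.le.trans hn) rfl

theorem peaks {p : ℕ} (hp : p.Prime) (L : IntermediateField ℚ ℂ) [FiniteDimensional ℚ L]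
    (h : ∀ H : Subgroup (L ≃ₐ[ℚ] L), Peak p H → MuConj p (fx L H)) : MuConj p L := by
  have : Finite (L ≃ₐ[ℚ] L) := inferInstance
  have : Fintype {D : Subgroup (L ≃ₐ[ℚ] L) // Peak p D} := Fintype.ofFinite _
  have h1 := mu_dom hp L ⊥ _ (card_bot hp) peaks_dominate (fun D => h D.1 D.2)
  rwa [fx_bot] at h1

theorem tight_nm {p : ℕ} (hp : p.Prime) {M : IntermediateField ℚ ℂ} [FiniteDimensional ℚ M]
    (ht : Tight p M) :
    ∃ (V : Type) (_ : CommGroup V) (b : (M ≃ₐ[ℚ] M) →* MulAut V), (∀ v : V, v ^ p = 1) ∧ (∃ v : V, v ≠ 1) ∧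
      ∀ D : Subgroup (M ≃ₐ[ℚ] M), D ≠ ⊥ → ∀ v : V, nm b D v = 1 := by
  obtain ⟨V, i1, i2, b, ⟨hV, _⟩, ⟨v, hv⟩, h⟩ := ht M ⊥ (card_bot hp) (fx_bot M)
  rw [nm_bot] at hv
  refine ⟨V, i1, b, hV, ⟨v, hv⟩, fun D hD0 w => ?_⟩
  by_contra hw
  refine h D ?_ ⟨w, hw⟩
  rw [Subgroup.card_bot]
  exact Subgroup.one_lt_card_iff_ne_bot D |>.2 hD0

theorem simple_two {Γ : Type} [Group Γ] [Finite Γ] {V : Type} [CommGroup V] (b : Γ →* MulAut V)
    (hV : ∀ v : V, v ^ 2 = 1) (hne : ∃ v : V, v ≠ 1) (hnm : ∀ D : Subgroup Γ, D ≠ ⊥ → ∀ v : V, nm b D v = 1)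
    (Γ' : Subgroup Γ) [IsSimpleGroup Γ'] (hn : ∃ x y : Γ', x * y ≠ y * x) (c : Γ) (hcΓ : c ∈ Γ') (hc : c * c = 1) :
    c = 1 := by
  by_contra hc1
  have h1 : ∀ g : Γ', b g.1 = 1 := by
    have h2 : (b.comp Γ'.subtype).ker = ⊥ ∨ (b.comp Γ'.subtype).ker = ⊤ :=
      IsSimpleGroup.eq_bot_or_eq_top_of_normal _ inferInstance
    have h3 : (⟨c, hcΓ⟩ : Γ') ∈ (b.comp Γ'.subtype).ker :=
      two_closure b hV hnm c (Subgroup.subset_closure hc)
    rcases h2 with h2 | h2
    · rw [h2, Subgroup.mem_bot] at h3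
      exact absurd (congrArg Subtype.val h3) hc1
    · intro g
      have : g ∈ (b.comp Γ'.subtype).ker := by rw [h2]; trivial
      exact this
  have h2 : IsPGroup 2 Γ' := by
    intro g
    obtain ⟨k, hk⟩ := ker_of_free b Nat.prime_two hne (fun D hD hD0 v hf =>
      free_of_nm b Nat.prime_two hV hnm D hD hD0 v hf) g.1 (h1 g)
    exact ⟨k, Subtype.ext hk⟩
  haveI : Nontrivial Γ' := IsSimpleGroup.toNontrivial
  haveI : Fact (Nat.Prime 2) := ⟨Nat.prime_two⟩
  have h3 := h2.center_nontrivial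
  have h4 : Subgroup.center Γ' = ⊥ ∨ Subgroup.center Γ' = ⊤ :=
    IsSimpleGroup.eq_bot_or_eq_top_of_normal _ inferInstance
  rcases h4 with h4 | h4
  · rw [h4] at h3
    exact not_nontrivial _ h3
  · obtain ⟨x, y, hxy⟩ := hn
    apply hxy
    have h5 : x ∈ Subgroup.center Γ' := by rw [h4]; trivial
    exact (Subgroup.mem_center_iff.1 h5 y).symm

/-- Part 1, for the field `F` and the subgroups `H` and `D i` of `Aut F`. -/
def Domination (p : ℕ) (F : IntermediateField ℚ ℂ) (ι : Type) [Fintype ι] (H : Subgroup (F ≃ₐ[ℚ] F))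
    (D : ι → Subgroup (F ≃ₐ[ℚ] F)) : Prop :=
  (∀ (E : IntermediateField ℚ ℂ) [NumberField F] [NumberField ↥(F ⊔ E)] [NumberField ↥(fx F H ⊔ E)]
    [∀ i, NumberField ↥(fx F (D i) ⊔ E)], FiniteDimensional ℚ E → IsGalois ℚ E →
    ∀ n, Module.finrank ℚ E = p ^ n →
      rk p ↥(fx F H ⊔ E) ≤ (∏ i, rk p ↥(fx F (D i) ⊔ E)) ^ Nat.card (F ≃ₐ[ℚ] F)) ∧
  ((∀ i, MuConj p (fx F (D i))) → MuConj p (fx F H))

/-- Part 2: the reduction to tight fields, in bounded degree, and the criterion with the peaks. -/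
def Reduction (p : ℕ) : Prop :=
  (∀ n : ℕ, (∀ M : IntermediateField ℚ ℂ, FiniteDimensional ℚ M → Tight p M →
      Module.finrank ℚ M ≤ n → MuConj p M) →
    ∀ F : IntermediateField ℚ ℂ, FiniteDimensional ℚ F → Module.finrank ℚ F ≤ n → MuConj p F) ∧
  ∀ (F : IntermediateField ℚ ℂ) [FiniteDimensional ℚ F],
    (∀ H : Subgroup (F ≃ₐ[ℚ] F), Peak p H → MuConj p (fx F H)) → MuConj p F

/-- `σ` has order `p` and normalises `Q`, which is commutative and of order prime to `p`. -/
structure Normalises {A : Type} [Group A] (p : ℕ) (σ : A) (Q : Subgroup A) : Prop where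
  order : orderOf σ = p
  comm : ∀ a ∈ Q, ∀ b ∈ Q, a * b = b * a
  card : ¬ p ∣ Nat.card Q
  conj : ∀ q ∈ Q, σ * q * σ⁻¹ ∈ Q

/-- `c` is an involution, and `D` is a subgroup of odd order of its normal closure. -/
structure OddInClosure {A : Type} [Group A] (c : A) (D : Subgroup A) : Prop where
  sq : c * c = 1
  ne : c ≠ 1
  le : D ≤ Subgroup.normalClosure {c}
  odd : ¬ 2 ∣ Nat.card D

/-- The group generated by the commutators `σ q σ⁻¹ q⁻¹`, `q ∈ Q`. -/
def commSub {A : Type} [Group A] (σ : A) (Q : Subgroup A) : Subgroup A :=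
  Subgroup.closure {x | ∃ q ∈ Q, x = σ * q * σ⁻¹ * q⁻¹}

/-- Part 3: the restrictions on the group `A` of the automorphisms of a tight field. -/
def Restricted (p : ℕ) (A : Type) [Group A] : Prop :=
  (∀ (Γ : Subgroup A) (q r : ℕ), q.Prime → r.Prime → q ≠ p → r ≠ p → Nat.card Γ = q * r → IsCyclic Γ) ∧
  (p = 2 → ∀ g ∈ Subgroup.closure {c : A | c * c = 1}, ∃ k, g ^ 2 ^ k = 1) ∧
  (p ≠ 2 → ∀ c c' : A, c ≠ 1 → c' ≠ 1 → c * c = 1 → c' * c' = 1 → ∃ k, (c * c') ^ p ^ k = 1) ∧
  (∀ Γ : Subgroup A, IsSimpleGroup Γ → (∃ a b : Γ, a * b ≠ b * a) → ∀ c ∈ Γ, c * c = 1 → c = 1) ∧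
  (∀ (σ : A) (Q : Subgroup A), Normalises p σ Q → ∀ q ∈ Q, σ * q = q * σ)

/-- Part 4: the conjecture for `p = 2` and `F` follows from two fixed fields. -/
def InvolutionPair (F : IntermediateField ℚ ℂ) (c : F ≃ₐ[ℚ] F) (D : Subgroup (F ≃ₐ[ℚ] F)) : Prop :=
  OddInClosure c D → MuConj 2 (fx F (Subgroup.zpowers c)) → MuConj 2 (fx F D) → MuConj 2 F

/-- Part 5: the conjecture for `p` and `F` follows from two fixed fields. -/
def CommutatorPair (p : ℕ) (F : IntermediateField ℚ ℂ) (σ : F ≃ₐ[ℚ] F) (Q : Subgroup (F ≃ₐ[ℚ] F)) : Prop :=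
  Normalises p σ Q → MuConj p (fx F (Subgroup.zpowers σ)) → MuConj p (fx F (commSub σ Q)) → MuConj p F

theorem result (p : ℕ) (hp : p.Prime) :
    (∀ (F : IntermediateField ℚ ℂ) [FiniteDimensional ℚ F] (ι : Type) [Fintype ι]
      (H : Subgroup (F ≃ₐ[ℚ] F)) (D : ι → Subgroup (F ≃ₐ[ℚ] F)),
      ¬ p ∣ Nat.card H → TraceDominates p H D → Domination p F ι H D) ∧
    Reduction p ∧
    (∀ M : IntermediateField ℚ ℂ, FiniteDimensional ℚ M → Tight p M → Restricted p (M ≃ₐ[ℚ] M)) ∧
    (p = 2 → ∀ F : IntermediateField ℚ ℂ, FiniteDimensional ℚ F → ∀ c D, InvolutionPair F c D) ∧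
    (∀ F : IntermediateField ℚ ℂ, FiniteDimensional ℚ F → ∀ σ Q, CommutatorPair p F σ Q) := by
  have hpf : Fact p.Prime := ⟨hp⟩
  refine ⟨fun F hF ι _ H D hH hdom => ⟨fun E _ _ _ _ hE hEg n hn => rk_dom_cx F E n hn H D hH hdom,
      mu_dom hp F H D hH hdom⟩, ⟨fun n h F hF hn => red hp n h F hF hn, fun F hF => peaks hp F⟩,
    fun M hM ht => ?_, ?_, fun F hF σ Q ⟨ho, hQ, hc, hσ⟩ h1 h2 => ?_⟩
  · obtain ⟨V, _, b, hV, hne, hnm⟩ := tight_nm hp ht
    have : Finite (M ≃ₐ[ℚ] M) := inferInstance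
    have hfree := free_of_nm b hp hV hnm
    refine ⟨fun Γ q r hq hr hqp hrp hc => cyclic_of_free b hp hV hne hfree Γ hq hr hqp hrp hc,
      fun hp2 g hg => ?_, fun hp2 c c' hc1 hc1' hc hc' => ?_, fun Γ hΓ hn c hcΓ hc => ?_,
      fun σ Q ⟨ho, hQ, hcQ, hσ⟩ q hq => ?_⟩
    · subst hp2
      exact ker_of_free b hp hne hfree g (two_closure b hV hnm g hg)
    · refine ker_of_free b hp hne hfree (c * c') ?_
      ext v
      rw [map_mul, MulAut.mul_apply, inv_of_free b hp hp2 hfree hc' hc1', inv_of_free b hp hp2 hfree hc hc1,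
        inv_inv, MulAut.one_apply]
    · by_cases hp2 : p = 2
      · subst hp2
        exact simple_two b hV hne hnm Γ hn c hcΓ hc
      by_contra hc1
      have h1 := comms_of_simple Γ hn hcΓ hc1
      have h2 : b c = 1 := comms_le_ker b (inv_of_free b hp hp2 hfree hc hc1) h1
      obtain ⟨v, hv⟩ := hne
      apply hv
      refine eq_one_two hp hp2 (hV v) ?_
      have h3 := inv_of_free b hp hp2 hfree hc hc1 v
      rw [h2, MulAut.one_apply] at h3
      nth_rewrite 2 [h3]
      exact mul_inv_cancel v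
    · have hσ1 : Subgroup.zpowers σ ≠ ⊥ := by
        intro h0
        rw [Subgroup.zpowers_eq_bot.1 h0, orderOf_one] at ho
        exact hp.one_lt.ne ho
      have h1 := comQ_triv hp hV ho hQ hσ hcQ (hnm _ hσ1)
      have h2 : comQ σ Q hQ hσ = ⊥ := by
        by_contra h0
        obtain ⟨v, hv⟩ := hne
        exact hv (hfree _ (fun h => hcQ (h.trans (Subgroup.card_dvd_of_le (comQ_le σ Q hQ hσ)))) h0 v
          fun d hd => h1 d hd v)
      have h3 : σ * q * σ⁻¹ * q⁻¹ ∈ comQ σ Q hQ hσ := ⟨q, hq, rfl⟩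
      rw [h2, Subgroup.mem_bot, mul_inv_eq_one, mul_inv_eq_iff_eq_mul] at h3
      exact h3
  · rintro rfl F hF c D ⟨hc, hc1, hD, ho⟩ h1 h2
    have : Finite (F ≃ₐ[ℚ] F) := inferInstance
    have h3 := mu_dom hp F ⊥ _ (card_bot hp) (dom_two hc hc1 hD ho ⊥) (by
      rintro (_ | _)
      · exact h2
      · exact h1)
    rwa [fx_bot] at h3
  · have : Finite (F ≃ₐ[ℚ] F) := inferInstance
    have h3 := mu_dom hp F ⊥ _ (card_bot hp) (dom_comQ hp ho hQ hσ hc ⊥) (by
      rintro (_ | _)
      · have h4 : commSub σ Q = comQ σ Q hQ hσ := by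
          unfold commSub
          apply le_antisymm
          · rw [Subgroup.closure_le]
            exact fun x hx => hx
          · exact fun x hx => Subgroup.subset_closure hx
        rw [h4] at h2
        exact h2
      · exact h1)
    rwa [fx_bot] at h3

end Pool.Agent.Results.MP_d0239a_nt.TraceDominatedFields
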